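import Pool.Agent.MP_6f2ed2_nt.H52.Main2

/-! Two-term asymptotic formula for the second primitive of Hardy's function: a linear term with a
negative coefficient and an oscillating term of exact order `T^(3/4)`. -/

namespace Pool.Agent.Results.MP_6f2ed2_nt.SecondTerm

open Filter Asymptotics Pool.Agent.MP_6f2ed2_nt.H1

theorem result : ∃ c : ℝ, c < 0 ∧
    (fun T : ℝ => hardyG T - c * T - 8 * Real.pi ^ 2 * (-1) ^ ⌊√(T / (2 * Real.pi))⌋₊ *
      (T / (2 * Real.pi)) ^ (3 / 4 : ℝ) *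
        max (-1 / 4) (min (1 / 4) (Int.fract √(T / (2 * Real.pi)) - 1 / 2))) =o[atTop]
      fun T : ℝ => T ^ (3 / 4 : ℝ) :=
  Pool.Agent.MP_6f2ed2_nt.H52.second

end Pool.Agent.Results.MP_6f2ed2_nt.SecondTerm
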